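import Pool.Agent.Q143.HP.Blocks

/-!
# The Gauss–Bonnet–Chern integrand of nonnegative block sums and multiply warped types

The classes (`Pool/Agent/Q143/HP/Blocks.lean`), for a Euclidean space of dimension `2 m`:

* `FivePos δ R`: the space is an orthogonal sum of any number of blocks of any dimensions,
  `R = ∑ (S_i + S'_i) + ∑ (x_k ∧ y_k)² + δ · (unit tensor)`, where `S_i`, `S'_i` are curvature
  tensors of nonnegative *sectional* curvature living on subspaces of dimension at most five of the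
  block `i`, and each `x_k` and each `y_k` lies in one of the blocks.
* `WarpPos δ R`: the tensors of multiply warped type, `∑ S_i + ∑_{i<j} h_ij ∧ k_ij + δ · unit`
  (Kulkarni–Nomizu products of symmetric forms `h_ij` on the block `i` and `k_ij` on the block `j`),
  with blocks of dimension at most five; here the only curvature hypothesis is that the sectional
  curvatures of `R` are at least `δ`.
* `BlocksPos δ R`: as `FivePos` with blocks of any dimension whose tensors have a nonnegative
  integrand on all their even-dimensional subspaces.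

(1) In every even dimension the Gauss–Bonnet–Chern integrand is at least its value for constant
curvature `δ`. (2), (3) Integrated forms.
(4) Superadditivity: `gbc (S + T) ≥ gbc S + gbc T` for `T = ∑ (x_k ∧ y_k)² + δ · (unit tensor)` if
`S` has a nonnegative integrand on all even-dimensional subspaces of smaller dimension.
(5) In dimension six this holds for every `S` of nonnegative sectional curvature.

The counterpart for nonpositive curvature is the starting hand-in `MP_5a30bb_gt.BlocksAndWarped`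
(`Pool/Agent/Y519/HB/`), from which this follows by `R ↦ -R`.
-/

set_option autoImplicit false

namespace Pool.Agent.Results.MP_4a593f_gt.BlocksAndWarped

open MeasureTheory Pool.Agent.W666.GB Pool.Agent.W669.HD Pool.Agent.Y519.HB Pool.Agent.Q143.HP

theorem result :
    (∀ (m : ℕ) (V : Type) [NormedAddCommGroup V] [InnerProductSpace ℝ V]
      (e : OrthonormalBasis (Fin m × Bool) ℝ V) (R : V → V → V → V → ℝ) (δ : ℝ),
      0 ≤ δ → BlocksPos δ R ∨ FivePos δ R ∨ WarpPos δ R → roundGB m δ ≤ gbc e R) ∧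
    (∀ (m : ℕ) (M : Type) [MeasurableSpace M] (μ : Measure M) (K : CurvField m M) (δ : M → ℝ),
      (∀ p, 0 ≤ δ p) →
      (∀ p, BlocksPos (δ p) (K.R p) ∨ FivePos (δ p) (K.R p) ∨ WarpPos (δ p) (K.R p)) →
        0 ≤ ∫ p, K.gb p ∂μ ∧ (Integrable K.gb μ → μ {p | 0 < δ p} ≠ 0 → 0 < ∫ p, K.gb p ∂μ)) ∧
    (∀ (m : ℕ) (M : Type) [MeasurableSpace M] (μ : Measure M) [IsFiniteMeasure μ]
      (K : CurvField m M) (δ : ℝ), Integrable K.gb μ → 0 ≤ δ →
      (∀ p, BlocksPos δ (K.R p) ∨ FivePos δ (K.R p) ∨ WarpPos δ (K.R p)) →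
        roundGB m δ * μ.real Set.univ ≤ ∫ p, K.gb p ∂μ) ∧
    (∀ (m : ℕ) (V : Type) [NormedAddCommGroup V] [InnerProductSpace ℝ V]
      (e : OrthonormalBasis (Fin m × Bool) ℝ V) (S T : V → V → V → V → ℝ) (n : ℕ)
      (x y : Fin n → V) (δ : ℝ), 0 < m → 0 ≤ δ → AlgCurv S →
      (∀ k < m, ∀ (E : Submodule ℝ V) (e : OrthonormalBasis (Fin k × Bool) ℝ E),
        0 ≤ gbc e (fun x y z w : E => S x y z w)) →
      (∀ a b c d, T a b c d = (∑ k, sqDec (x k) (y k) a b c d) + δ * unitT a b c d) →
      gbc e S + gbc e T ≤ gbc e (addT S T) ∧ roundGB m δ ≤ gbc e T) ∧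
    (∀ (V : Type) [NormedAddCommGroup V] [InnerProductSpace ℝ V]
      (e : OrthonormalBasis (Fin 3 × Bool) ℝ V) (S T : V → V → V → V → ℝ) (n : ℕ)
      (x y : Fin n → V) (δ : ℝ), 0 ≤ δ → AlgCurv S → (∀ a b, 0 ≤ S a b a b) →
      (∀ a b c d, T a b c d = (∑ k, sqDec (x k) (y k) a b c d) + δ * unitT a b c d) →
      gbc e S + gbc e T ≤ gbc e (addT S T) ∧ roundGB 3 δ ≤ gbc e T) := by
  refine ⟨fun _ _ _ _ e _ _ hδ h => cls_pos e hδ h, ?_, ?_,
    fun _ _ _ _ e _ _ _ _ _ _ hm hδ hS hH hT => super_pos hm e hδ hS hH hT,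
    fun _ _ _ e _ _ _ _ _ _ hδ hS hs hT => six_pos e hδ hS hs hT⟩
  · intro m M _ μ K δ hδ h
    have h1 : ∀ p, roundGB m (δ p) ≤ K.gb p := fun p => cls_pos (K.e p) (hδ p) (h p)
    have h0 : ∀ p, 0 ≤ K.gb p := fun p => (roundGB_nonneg (hδ p)).trans (h1 p)
    refine ⟨integral_nonneg h0, fun hi hμ => ?_⟩
    rw [integral_pos_iff_support_of_nonneg h0 hi]
    refine lt_of_lt_of_le (pos_iff_ne_zero.2 hμ) (measure_mono fun p hp => ?_)
    have h2 : 0 < roundGB m (δ p) := Pool.Agent.W666.GB.roundGB_pos hp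
    exact (h2.trans_le (h1 p)).ne'
  · intro m M _ μ _ K δ hi hδ h
    have h1 : roundGB m δ * μ.real Set.univ = ∫ _, roundGB m δ ∂μ := by
      rw [integral_const, smul_eq_mul, mul_comm]
    rw [h1]
    exact integral_mono (integrable_const _) hi fun p => cls_pos (K.e p) hδ (h p)

end Pool.Agent.Results.MP_4a593f_gt.BlocksAndWarped
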