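import Pool.Agent.W714.HE.Main

/-!
# Six-dimensional Einstein manifolds of nonnegative curvature

At a point where the Ricci tensor is `5 κ` times the metric (`κ > 0`) and all sectional curvatures lie
in `[0, 2 κ]`, the Gauss-Bonnet-Chern integrand of a Riemannian six-manifold is at least `1 / 50` times
its value for constant curvature `κ`. So the Euler characteristic of a closed Einstein six-manifold
with `0 ≤ K ≤ 2 κ`, `Ric = 5 κ g`, is positive.

The pointwise bound is the starting theorem `ein_pos` of `Pool/Agent/W714/HE/Main.lean`, which no hand-in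
used (the starting hand-in `MP_5a30bb_gt.EinsteinDimSix` is the counterpart for nonpositive
curvature).
-/

set_option autoImplicit false

namespace Pool.Agent.Results.MP_4a593f_gt.EinsteinDimSix

open Hopf6 MeasureTheory Pool.Agent.W714.HE

/-- Einstein curvature tensors with `0 ≤ K ≤ 2 κ`, `Ric = 5 κ` in dimension six. -/
theorem result :
    (∀ (V : Type) [NormedAddCommGroup V] [InnerProductSpace ℝ V]
      (e : OrthonormalBasis (Fin 6) ℝ V) (R : V → V → V → V → ℝ), AlgCurv R →
      ∀ κ : ℝ, 0 < κ → Einstein e R κ → Hopf6.SecIn R 0 (2 * κ) →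
        1 / 50 * roundGB κ ≤ Hopf6.gbc e R ∧ 0 < Hopf6.gbc e R) ∧
    (∀ (M : Type) [MeasurableSpace M] (μ : Measure M) (K : CurvField M) (κ : M → ℝ), μ ≠ 0 →
      (∀ p, 0 < κ p ∧ Einstein (K.e p) (K.R p) (κ p) ∧ K.SecIn p 0 (2 * κ p)) →
        Integrable K.gbc μ → 0 < ∫ p, K.gbc p ∂μ ∧
          (Integrable (fun p => roundGB (κ p)) μ →
            1 / 50 * ∫ p, roundGB (κ p) ∂μ ≤ ∫ p, K.gbc p ∂μ)) := by
  have hpt : ∀ (V : Type) [NormedAddCommGroup V] [InnerProductSpace ℝ V]
      (e : OrthonormalBasis (Fin 6) ℝ V) (R : V → V → V → V → ℝ), AlgCurv R →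
      ∀ κ : ℝ, 0 < κ → Einstein e R κ → Hopf6.SecIn R 0 (2 * κ) →
        1 / 50 * roundGB κ ≤ Hopf6.gbc e R ∧ 0 < Hopf6.gbc e R := by
    intro V _ _ e R hR κ hκ hE h
    have h1 : 1 / 50 * roundGB κ ≤ Hopf6.gbc e R := by
      have h1 := ein_pos e hR hκ hE h
      have hpi := Real.pi_pos
      rw [gbc_eq]
      calc 1 / 50 * roundGB κ = 1 / ((8 * Real.pi) ^ 3 * 6) * (5760 / 50 * κ ^ 3) := by
            unfold roundGB
            field_simp
            norm_num
        _ ≤ 1 / ((8 * Real.pi) ^ 3 * 6) * gb (tn e R) :=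
            mul_le_mul_of_nonneg_left h1 (by positivity)
    refine ⟨h1, lt_of_lt_of_le ?_ h1⟩
    have := roundGB_pos hκ
    linarith
  refine ⟨hpt, ?_⟩
  intro M _ μ K κ hμ h hint
  have hle : ∀ p, 1 / 50 * roundGB (κ p) ≤ K.gbc p ∧ 0 < K.gbc p := fun p =>
    hpt (K.V p) (K.e p) (K.R p) (K.curv p) (κ p) (h p).1 (h p).2.1 (h p).2.2
  constructor
  · rw [integral_pos_iff_support_of_nonneg (fun p => (hle p).2.le) hint]
    have hs : Function.support (fun p => K.gbc p) = Set.univ := by
      ext p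
      simp only [Function.mem_support, Set.mem_univ, iff_true]
      exact (hle p).2.ne'
    rw [hs]
    exact Measure.measure_univ_pos.2 hμ
  · intro h3
    rw [← integral_const_mul]
    exact integral_mono (h3.const_mul _) hint fun p => (hle p).1

end Pool.Agent.Results.MP_4a593f_gt.EinsteinDimSix
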