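import Pool.Agent.W666.GB.Main
import Pool.Agent.W669.HD.FiveFin

/-!
# Positivity of the Gauss–Bonnet–Chern integrand for curvature tensors close to constant positive
curvature in the Hilbert–Schmidt norm

Let `n = 2 m` be any even dimension and `G(κ)` the value of the Gauss–Bonnet–Chern integrand for
constant curvature `κ`. If at a point the mean of the sectional curvatures is `κ > 0` and the
Hilbert–Schmidt norms of `R - R_κ` and of `Ric - Ric_κ` (`R_κ`, `Ric_κ`: constant curvature `κ`) are at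
most `10⁻⁶ κ n`, then `|GB(R) - G(κ)| ≤ G(κ) / 5`. No sign of the sectional curvatures is assumed. The
Hilbert–Schmidt norm of `R_κ` is about `√2 κ n`; the pinching theorems of Huisken, Margerin and
Nishikawa need the Hilbert–Schmidt norm of `R - R_κ` to be at most a constant times `κ`, independently
of `n`. The integrated form: the Euler characteristic is positive.

The counterpart for negative curvature is the hand-in `MP_5a30bb_gt.NearlyConstantCurvature` of
helper144; both follow from the starting theorem `gbc_close` of `Pool/Agent/W666/GB/`.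
-/

set_option autoImplicit false

namespace Pool.Agent.Results.MP_4a593f_gt.NearlyConstantCurvature

open Pool.Agent.W666.GB MeasureTheory

variable {m : ℕ} {V : Type} [NormedAddCommGroup V] [InnerProductSpace ℝ V]

/-- squared Hilbert–Schmidt distance of `R` to the tensor of constant curvature `κ` -/
noncomputable def distR (e : OrthonormalBasis (Fin m × Bool) ℝ V) (R : V → V → V → V → ℝ)
    (κ : ℝ) : ℝ :=
  ∑ i, ∑ j, ∑ k, ∑ l, (R (e i) (e j) (e k) (e l) - κ * unitCurv i j k l) ^ 2

/-- squared Hilbert–Schmidt distance of the Ricci tensor of `R` to `(2 m - 1) κ` times the inner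
product -/
noncomputable def distRic (e : OrthonormalBasis (Fin m × Bool) ℝ V) (R : V → V → V → V → ℝ)
    (κ : ℝ) : ℝ :=
  ∑ j, ∑ l, (∑ i, R (e i) (e j) (e i) (e l) - (2 * m - 1) * κ * (if j = l then 1 else 0)) ^ 2

theorem dev_neg (e : OrthonormalBasis (Fin m × Bool) ℝ V) (R : V → V → V → V → ℝ) (κ : ℝ) :
    devR e (Pool.Agent.W669.HD.negT R) κ = distR e R κ := by
  unfold devR distR
  refine Finset.sum_congr rfl fun i _ => Finset.sum_congr rfl fun j _ =>
    Finset.sum_congr rfl fun k _ => Finset.sum_congr rfl fun l _ => ?_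
  rw [Pool.Agent.W669.HD.negT]
  ring

theorem devRic_neg (e : OrthonormalBasis (Fin m × Bool) ℝ V) (R : V → V → V → V → ℝ) (κ : ℝ) :
    devRic e (Pool.Agent.W669.HD.negT R) κ = distRic e R κ := by
  unfold devRic distRic
  refine Finset.sum_congr rfl fun j _ => Finset.sum_congr rfl fun l _ => ?_
  have h1 : ∑ i, Pool.Agent.W669.HD.negT R (e i) (e j) (e i) (e l) =
      - ∑ i, R (e i) (e j) (e i) (e l) := by
    rw [← Finset.sum_neg_distrib]
    rfl
  rw [h1]
  ring

theorem close (e : OrthonormalBasis (Fin m × Bool) ℝ V) {R : V → V → V → V → ℝ}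
    (hR : AlgCurv R) {κ : ℝ} (hκ : 0 < κ) (hsc : scal e R = κ * (2 * m * (2 * m - 1)))
    (h1 : distR e R κ ≤ (1 / 10 ^ 6 * κ * (2 * m)) ^ 2)
    (h2 : distRic e R κ ≤ (1 / 10 ^ 6 * κ * (2 * m)) ^ 2) :
    |gbc e R - roundGB m κ| ≤ 1 / 5 * roundGB m κ := by
  have hs : scal e (Pool.Agent.W669.HD.negT R) = -(κ * (2 * m * (2 * m - 1))) := by
    rw [← hsc]
    unfold scal Pool.Agent.W669.HD.negT
    simp only [Finset.sum_neg_distrib]
  have h3 := gbc_close e (Pool.Agent.W669.HD.neg_curv hR) hκ hs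
    (by rw [dev_neg]; exact h1) (by rw [devRic_neg]; exact h2)
  rwa [Pool.Agent.W669.HD.gbc_neg] at h3

/-- **Nearly constant positive curvature in the Hilbert–Schmidt norm**: the pointwise estimate and the
integrated form. -/
theorem result :
    (∀ (m : ℕ) (V : Type) [NormedAddCommGroup V] [InnerProductSpace ℝ V]
      (e : OrthonormalBasis (Fin m × Bool) ℝ V) (R : V → V → V → V → ℝ) (κ : ℝ),
      AlgCurv R → 0 < κ → scal e R = κ * (2 * m * (2 * m - 1)) →
      distR e R κ ≤ (1 / 10 ^ 6 * κ * (2 * m)) ^ 2 →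
      distRic e R κ ≤ (1 / 10 ^ 6 * κ * (2 * m)) ^ 2 →
        |gbc e R - roundGB m κ| ≤ 1 / 5 * roundGB m κ) ∧
    (∀ (m : ℕ) (M : Type) [MeasurableSpace M] (μ : Measure M) (K : CurvField m M) (κ : M → ℝ),
      μ ≠ 0 → Integrable K.gb μ →
      (∀ p, 0 < κ p ∧ scal (K.e p) (K.R p) = κ p * (2 * m * (2 * m - 1)) ∧
        distR (K.e p) (K.R p) (κ p) ≤ (1 / 10 ^ 6 * κ p * (2 * m)) ^ 2 ∧
        distRic (K.e p) (K.R p) (κ p) ≤ (1 / 10 ^ 6 * κ p * (2 * m)) ^ 2) →
        0 < ∫ p, K.gb p ∂μ) := by
  refine ⟨fun m V _ _ e R κ hR hκ hs h1 h2 => close e hR hκ hs h1 h2, ?_⟩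
  intro m M _ μ K κ hμ hi h
  have h0 : ∀ p, 0 < K.gb p := by
    intro p
    have h1 := close (K.e p) (K.curv p) (h p).1 (h p).2.1 (h p).2.2.1 (h p).2.2.2
    have h2 := roundGB_pos (m := m) (h p).1
    have h3 := (abs_le.1 h1).1
    change 0 < gbc (K.e p) (K.R p)
    linarith
  rw [integral_pos_iff_support_of_nonneg (fun p => (h0 p).le) hi]
  have hs : Function.support (fun p => K.gb p) = Set.univ := by
    ext p
    simp only [Function.mem_support, Set.mem_univ, iff_true]
    exact (h0 p).ne'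
  rw [hs]
  exact Measure.measure_univ_pos.2 hμ

end Pool.Agent.Results.MP_4a593f_gt.NearlyConstantCurvature
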