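import Pool.Agent.Q143.HP.High

/-!
# Positivity of the Euler characteristic in high dimensions under an upper bound of the curvature
operator and lower Ricci and scalar bounds

Let `n = 2 m`, let `G` be the value of the Gauss–Bonnet–Chern integrand for constant curvature `c > 0` and
suppose that at a point of a Riemannian `n`-manifold the curvature operator is at most `c` and
`Ric ≥ (1 - δ) (n - 1) c`, `0 ≤ δ ≤ 1 / 8`. Put `y = m - scal / (2 c (n - 1))` (so `y ≥ 0`, and
`scal = n (n - 1) c (1 - 2 y / n)`). Then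

`|GB / G - exp (-y)| ≤ 3 exp (3 y) (δ + y / (m - 1)) + exp (6 y) / 2 ^ ⌊m / 2⌋`.

So the normalised integrand is asymptotic to `exp (-y)`, and the integrand is positive as soon as
`scal ≥ (n - 1) (n - A) c`, `Ric ≥ (1 - exp (-2 A) / 12) (n - 1) c`, `m ≥ 6 (A + 2) exp (2 A)`, for every
`A ≥ 0` (without the Ricci bound the sharp range is `A = 2`, see `SharpScalarPinching`). Single
sectional curvatures may be close to zero (or negative), so this is not covered by the sphere
theorems.

The pointwise theorem is the starting theorem `asym_pos` of `Pool/Agent/TH594/HA/Pt.lean`, which no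
hand-in used; the counterpart for nonpositive curvature is the starting hand-in
`MP_5a30bb_gt.RicciHighDimension`.
-/

set_option autoImplicit false

namespace Pool.Agent.Results.MP_4a593f_gt.RicciHighDimension

open MeasureTheory
open Pool.Agent.TH594.HA Pool.Agent.TH594.HR Pool.Agent.Q143.HP
open Pool.Agent.W666.GB (AlgCurv gbc scal roundGB CurvField)
open Pool.Agent.W669.HD (addT negT unitT OpNonneg)

/-- The Gauss–Bonnet–Chern integrand in high dimensions under an upper bound of the curvature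
operator and lower bounds of the Ricci and scalar curvature. -/
theorem result :
    -- the estimate
    (∀ (m : ℕ) (V : Type) [NormedAddCommGroup V] [InnerProductSpace ℝ V]
      (e : OrthonormalBasis (Fin m × Bool) ℝ V) (R : V → V → V → V → ℝ) (c δ : ℝ),
      2 ≤ m → AlgCurv R → 0 < c → 0 ≤ δ → δ ≤ 1 / 8 →
      OpNonneg (addT (negT R) fun x y z w => c * unitT x y z w) →
      (∀ x : V, (2 * m - 1) * ((1 - δ) * c) * ‖x‖ ^ 2 ≤ ric e R x) →
      0 ≤ defP e R c ∧
        |gbc e R - Real.exp (-(defP e R c)) * roundGB m c| ≤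
          err m δ (defP e R c) * roundGB m c) ∧
    -- positivity, for every `X`, in high dimensions
    (∀ (m : ℕ) (V : Type) [NormedAddCommGroup V] [InnerProductSpace ℝ V]
      (e : OrthonormalBasis (Fin m × Bool) ℝ V) (R : V → V → V → V → ℝ) (c X : ℝ),
      AlgCurv R → 0 ≤ X → 12 * (X + 1) * Real.exp (4 * X) ≤ m → PinchedPos X e R c →
        1 / 4 * Real.exp (-X) * roundGB m c ≤ gbc e R ∧ gbc e R ≤ 7 / 4 * roundGB m c) ∧
    -- the hypothesis in terms of a Ricci bound alone
    (∀ (m : ℕ) (V : Type) [NormedAddCommGroup V] [InnerProductSpace ℝ V]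
      (e : OrthonormalBasis (Fin m × Bool) ℝ V) (R : V → V → V → V → ℝ) (c κ X : ℝ),
      0 < c → 0 ≤ X → 12 * (X + 1) * Real.exp (4 * X) ≤ m →
      OpNonneg (addT (negT R) fun x y z w => c * unitT x y z w) →
      (∀ x : V, (2 * m - 1) * κ * ‖x‖ ^ 2 ≤ ric e R x) → m * (1 - κ / c) ≤ X →
        PinchedPos X e R c) ∧
    -- the logarithmic range
    (∀ (m : ℕ) (V : Type) [NormedAddCommGroup V] [InnerProductSpace ℝ V]
      (e : OrthonormalBasis (Fin m × Bool) ℝ V) (R : V → V → V → V → ℝ) (c κ : ℝ),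
      AlgCurv R → 10 ^ 6 ≤ 2 * m → 0 < c →
      OpNonneg (addT (negT R) fun x y z w => c * unitT x y z w) →
      (∀ x : V, (2 * m - 1) * κ * ‖x‖ ^ 2 ≤ ric e R x) →
      2 * m * (1 - κ / c) ≤ Real.log (2 * m) / 3 → 0 < gbc e R) ∧
    -- the integral
    (∀ (m : ℕ) (M : Type) [MeasurableSpace M] (μ : Measure M) (K : CurvField m M) (c : M → ℝ)
      (X : ℝ), 0 ≤ X → 12 * (X + 1) * Real.exp (4 * X) ≤ m → Integrable K.gb μ →
      (∀ p, PinchedPos X (K.e p) (K.R p) (c p)) →
        (μ ≠ 0 → 0 < ∫ p, K.gb p ∂μ) ∧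
        (Integrable (fun p => roundGB m (c p)) μ →
          1 / 4 * Real.exp (-X) * ∫ p, roundGB m (c p) ∂μ ≤ ∫ p, K.gb p ∂μ ∧
          ∫ p, K.gb p ∂μ ≤ 7 / 4 * ∫ p, roundGB m (c p) ∂μ)) := by
  refine ⟨?_, ?_, ?_, ?_, ?_⟩
  · intro m V _ _ e R c δ hm hR hc hδ0 hδ hop hric
    exact asym_pos e hm hR hc hδ0 hδ hop hric
  · intro m V _ _ e R c X hR hX hm h
    exact h.sign hR hX hm
  · intro m V _ _ e R c κ X hc hX hm hop hric hκ
    exact pos_of_ric e hc hX hm hop hric hκ
  · intro m V _ _ e R c κ hR hm hc hop hric hκ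
    obtain ⟨hX, hm'⟩ := log_range hm
    have h := pos_of_ric e hc hX hm' hop hric (by linarith)
    have h1 := (h.sign hR hX hm').1
    have h3 := (Pool.Agent.W666.GB.roundGB_pos (m := m) hc)
    have h4 : 0 < 1 / 4 * Real.exp (-(Real.log (2 * m) / 6)) * roundGB m c := by positivity
    linarith
  · intro m M _ μ K c X hX hm hi h
    have h1 : ∀ p, 1 / 4 * Real.exp (-X) * roundGB m (c p) ≤ K.gb p ∧
        K.gb p ≤ 7 / 4 * roundGB m (c p) := fun p => (h p).sign (K.curv p) hX hm
    refine ⟨fun hμ => ?_, fun hr => ⟨?_, ?_⟩⟩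
    · have hμ' : μ Set.univ ≠ 0 := by simpa using hμ
      have h0 : ∀ p, 0 < K.gb p := fun p => by
        have h3 := (Pool.Agent.W666.GB.roundGB_pos (m := m) (h p).1)
        have h4 : 0 < 1 / 4 * Real.exp (-X) * roundGB m (c p) := by positivity
        exact h4.trans_le (h1 p).1
      exact Pool.Agent.TH594.HP.pos_of μ _ (fun p => (h0 p).le) hi Set.univ (fun p _ => h0 p) hμ'
    · rw [← integral_const_mul]
      exact integral_mono (hr.const_mul _) hi fun p => (h1 p).1
    · rw [← integral_const_mul]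
      exact integral_mono hi (hr.const_mul _) fun p => (h1 p).2

end Pool.Agent.Results.MP_4a593f_gt.RicciHighDimension
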